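import Pool.Agent.Y678.RG.Mult
import Mathlib.NumberTheory.Chebyshev

set_option autoImplicit false
set_option maxHeartbeats 4000000

/-! # Products of `k` primes in the middle of record gaps -/

namespace Pool.Agent.Y678.RG

open Finset Filter
open Pool.Agent.H256R2.SC (ff)

open scoped Classical

/-- the counting form of `multiplesA` -/
theorem multA (J D : ℕ) (A₀ : ℝ) (d : ℕ) (hd : Squarefree d) : ∃ c : ℝ, 0 < c ∧ ∃ X₀ : ℝ, ∀ X : ℝ, X₀ ≤ X →
    ∀ a b : ℤ, a ≠ 0 → |(a : ℝ)| ≤ X ^ D → |(b : ℝ)| ≤ X ^ D →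
    ({p : ℕ | p.Prime ∧ (p : ℤ) ∣ a ∧ (p : ℝ) ≤ Real.log X}.ncard : ℝ) ≤ D * (Real.log (Real.log X)) ^ 2 →
    (∑ᶠ p ∈ {p : ℕ | p.Prime ∧ (p : ℤ) ∣ a ∧ (p : ℝ) ≤ Real.log X}, (1 : ℝ) / p) ≤ A₀ →
    ∀ h : ℕ, h.Coprime d →
    X ^ (7 / 8 : ℝ) ≤ ({p : ℕ | p.Prime ∧ X < p ∧ (p : ℝ) ≤ 3 * X ∧ p ≡ h [MOD d] ∧
      ∀ i j : ℤ, 1 ≤ |i| → |i| ≤ J → 1 ≤ |j| → |j| ≤ J → ∀ q : ℕ, q.Prime → q ≠ p →
        c * ff X < |((j * q - i * (a * p + b) : ℤ) : ℝ)|}.ncard : ℝ) := by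
  obtain ⟨c, hc, hX⟩ := multiplesA J D A₀ d hd
  obtain ⟨X₀, hX₀⟩ := eventually_atTop.1 hX
  refine ⟨c, hc, X₀, fun X hXX a b ha haX hb hcard hsum h hh => ?_⟩
  have hset : {p : ℕ | p.Prime ∧ (p : ℤ) ∣ a ∧ (p : ℝ) ≤ Real.log X} =
      ((a.natAbs.primeFactors.filter (fun p : ℕ => (p : ℝ) ≤ Real.log X) : Finset ℕ) : Set ℕ) := by
    ext p
    rw [mem_coe, mem_filter, Nat.mem_primeFactors]
    constructor
    · rintro ⟨h1, h2, h3⟩
      exact ⟨⟨h1, Int.natCast_dvd.1 h2, Int.natAbs_ne_zero.2 ha⟩, h3⟩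
    · rintro ⟨⟨h1, h2, -⟩, h3⟩
      exact ⟨h1, Int.natCast_dvd.2 h2, h3⟩
  rw [hset, Set.ncard_coe_finset] at hcard
  rw [hset, finsum_mem_coe_finset] at hsum
  set S := {p : ℕ | p.Prime ∧ X < p ∧ (p : ℝ) ≤ 3 * X ∧ p ≡ h [MOD d] ∧
      ∀ i j : ℤ, 1 ≤ |i| → |i| ≤ J → 1 ≤ |j| → |j| ≤ J → ∀ q : ℕ, q.Prime → q ≠ p →
        c * ff X < |((j * q - i * (a * p + b) : ℤ) : ℝ)|} with hS
  have hfin : S.Finite := by
    apply (Set.finite_Iic ⌊3 * X⌋₊).subset
    intro p hp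
    exact Set.mem_Iic.2 (Nat.le_floor hp.2.2.1)
  by_contra hcon
  push Not at hcon
  rw [Set.ncard_eq_toFinset_card S hfin] at hcon
  obtain ⟨p, hp, hXp, hp3, hpb, hpd, hmain⟩ := hX₀ X hXX a b ha haX hcard hsum hb h hh hfin.toFinset hcon.le
  apply hpb
  rw [Set.Finite.mem_toFinset]
  refine ⟨hp, hXp, hp3, hpd, fun i j hi1 hiJ hj1 hjJ q hq hqp => ?_⟩
  by_contra hle
  push Not at hle
  exact hqp (hmain i j hi1 hiJ hj1 hjJ q hq hle)

/-- the form with finite sets of primes -/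
theorem multB (J D : ℕ) (A₀ : ℝ) (d : ℕ) (hd : Squarefree d) : ∃ c : ℝ, 0 < c ∧ ∃ X₀ : ℝ, ∀ X : ℝ, X₀ ≤ X →
    ∀ a b : ℤ, a ≠ 0 → |(a : ℝ)| ≤ X ^ D → |(b : ℝ)| ≤ X ^ D →
    (∀ s : Finset ℕ, (∀ p ∈ s, p.Prime ∧ (p : ℤ) ∣ a ∧ (p : ℝ) ≤ Real.log X) →
      (s.card : ℝ) ≤ D * (Real.log (Real.log X)) ^ 2 ∧ ∑ p ∈ s, (1 : ℝ) / p ≤ A₀) →
    ∀ h : ℕ, h.Coprime d →
    X ^ (7 / 8 : ℝ) ≤ ({p : ℕ | p.Prime ∧ X < p ∧ (p : ℝ) ≤ 3 * X ∧ p ≡ h [MOD d] ∧
      ∀ i j : ℤ, 1 ≤ |i| → |i| ≤ J → 1 ≤ |j| → |j| ≤ J → ∀ q : ℕ, q.Prime → q ≠ p →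
        c * ff X < |((j * q - i * (a * p + b) : ℤ) : ℝ)|}.ncard : ℝ) := by
  obtain ⟨c, hc, X₀, hX₀⟩ := multA J D A₀ d hd
  refine ⟨c, hc, X₀, fun X hXX a b ha haX hb hs h hh => ?_⟩
  have hset : {p : ℕ | p.Prime ∧ (p : ℤ) ∣ a ∧ (p : ℝ) ≤ Real.log X} =
      ((a.natAbs.primeFactors.filter (fun p : ℕ => (p : ℝ) ≤ Real.log X) : Finset ℕ) : Set ℕ) := by
    ext p
    rw [mem_coe, mem_filter, Nat.mem_primeFactors]
    constructor
    · rintro ⟨h1, h2, h3⟩
      exact ⟨⟨h1, Int.natCast_dvd.1 h2, Int.natAbs_ne_zero.2 ha⟩, h3⟩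
    · rintro ⟨⟨h1, h2, -⟩, h3⟩
      exact ⟨h1, Int.natCast_dvd.2 h2, h3⟩
  obtain ⟨h1, h2⟩ := hs (a.natAbs.primeFactors.filter (fun p : ℕ => (p : ℝ) ≤ Real.log X)) (by
    intro p hp
    have : p ∈ {p : ℕ | p.Prime ∧ (p : ℤ) ∣ a ∧ (p : ℝ) ≤ Real.log X} := by
      rw [hset]
      exact hp
    exact this)
  exact hX₀ X hXX a b ha haX hb (by rw [hset, Set.ncard_coe_finset]; exact h1)
    (by rw [hset, finsum_mem_coe_finset]; exact h2) h hh

/-- many primes in `(X, 3X]` -/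
theorem many_primes : ∀ᶠ X : ℝ in atTop, X / (4 * Real.log X) ≤
    (((Icc 1 ⌊3 * X⌋₊).filter (fun p : ℕ => p.Prime ∧ X < p)).card : ℝ) := by
  have h2 : Tendsto (fun X : ℝ => Real.log X / X ^ (1 / 2 : ℝ)) atTop (nhds 0) :=
    (isLittleO_log_rpow_atTop (by norm_num)).tendsto_div_nhds_zero
  filter_upwards [eventually_ge_atTop 100, h2.eventually (gt_mem_nhds (show (0 : ℝ) < 1 / 1000 by norm_num)),
    Real.tendsto_log_atTop.eventually_ge_atTop 100] with X hX h3 hL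
  have hX0 : 0 < X := by linarith
  have hs : X ^ (1 / 2 : ℝ) = √X := (Real.sqrt_eq_rpow X).symm
  rw [hs] at h3
  have hs0 : 0 < √X := Real.sqrt_pos.2 hX0
  rw [div_lt_iff₀ hs0] at h3
  have hss : √X * √X = X := Real.mul_self_sqrt hX0.le
  have hs1 : 10 ≤ √X := by
    by_contra hcon
    push Not at hcon
    nlinarith
  have hlog3 : Real.log (3 * X) ≤ 2 * Real.log X := by
    rw [Real.log_mul (by norm_num) hX0.ne']
    have : Real.log 3 ≤ 2 := by
      have := Real.log_le_sub_one_of_pos (show (0 : ℝ) < 3 by norm_num)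
      linarith
    linarith
  have hlog4 : Real.log (3 * X + 2) ≤ 2 * Real.log X := by
    have h4 : 3 * X + 2 ≤ X ^ 2 := by nlinarith
    have h5 := Real.log_le_log (by positivity) h4
    rw [Real.log_pow] at h5
    exact_mod_cast h5
  have hs3 : √(3 * X) ≤ 2 * √X := by
    rw [Real.sqrt_le_left (by positivity)]
    nlinarith
  have ha := Chebyshev.theta_ge' (x := 3 * X) (by linarith)
  have hb := Chebyshev.theta_le_log4_mul_x (x := X) hX0.le
  have hl2 : 0.69 ≤ Real.log 2 := by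
    have := Real.log_two_gt_d9
    linarith
  have hl2' : Real.log 2 ≤ 1 := by
    have := Real.log_two_lt_d9
    linarith
  have hl4 : Real.log 4 = 2 * Real.log 2 := by
    rw [show (4 : ℝ) = 2 ^ 2 by norm_num, Real.log_pow]
    norm_num
  have hL0 : 0 < Real.log X := by linarith
  have hdiff : X / 2 ≤ Chebyshev.theta (3 * X) - Chebyshev.theta X := by
    rw [hl4] at hb
    have e1 : 2 * √(3 * X) * Real.log (3 * X) ≤ 2 * (2 * √X) * (2 * Real.log X) := by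
      have : 0 ≤ Real.log (3 * X) := Real.log_nonneg (by linarith)
      gcongr
    have e2 : 2 * (2 * √X) * (2 * Real.log X) ≤ X / 100 := by
      have : √X * Real.log X ≤ √X * (1 / 1000 * √X) := mul_le_mul_of_nonneg_left h3.le hs0.le
      nlinarith
    have e3 : 2 * Real.log X ≤ X / 100 := by nlinarith
    nlinarith
  set Q : Finset ℕ := (Icc 1 ⌊3 * X⌋₊).filter (fun p : ℕ => p.Prime ∧ X < p) with hQ
  have hup : Chebyshev.theta (3 * X) ≤ Chebyshev.theta X + Q.card * (2 * Real.log X) := by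
    rw [Chebyshev.theta_eq_sum_Icc, Chebyshev.theta_eq_sum_Icc]
    have hsub : (Icc 0 ⌊3 * X⌋₊).filter Nat.Prime ⊆ (Icc 0 ⌊X⌋₊).filter Nat.Prime ∪ Q := by
      intro p hp
      rw [mem_filter, mem_Icc] at hp
      rw [mem_union, hQ, mem_filter, mem_filter, mem_Icc, mem_Icc]
      by_cases h : X < p
      · right
        exact ⟨⟨hp.2.one_lt.le, hp.1.2⟩, hp.2, h⟩
      · left
        exact ⟨⟨Nat.zero_le _, Nat.le_floor (not_lt.1 h)⟩, hp.2⟩
    have hlog : ∀ i : ℕ, 0 ≤ Real.log (i : ℝ) := fun i => Real.log_natCast_nonneg i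
    refine (sum_le_sum_of_subset_of_nonneg hsub (fun i _ _ => hlog i)).trans ?_
    refine (Pool.Agent.TH101.RG.sum_union_le' (fun i : ℕ => Real.log (i : ℝ)) hlog).trans ?_
    apply add_le_add_right
    rw [← nsmul_eq_mul]
    apply sum_le_card_nsmul
    intro p hp
    rw [hQ, mem_filter, mem_Icc] at hp
    have h4 : (p : ℝ) ≤ 3 * X := (Nat.le_floor_iff (by positivity)).1 hp.1.2
    exact (Real.log_le_log (by exact_mod_cast hp.2.1.pos) h4).trans hlog3
  rw [div_le_iff₀ (by positivity)]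
  nlinarith

/-- the record scale does not grow much from `X` to a power of `X` -/
theorem ff_pow_le (k : ℕ) (hk : 1 ≤ k) : ∀ᶠ X : ℝ in atTop, ∀ n : ℝ, X ≤ n → n ≤ (3 * X) ^ k →
    ff n ≤ 16 * k * ff X := by
  have t1 := Real.tendsto_log_atTop
  have t2 : Tendsto (fun y : ℝ => Real.log (Real.log y)) atTop atTop := t1.comp t1
  have t3 : Tendsto (fun y : ℝ => Real.log (Real.log (Real.log y))) atTop atTop := t1.comp t2
  have t4 : Tendsto (fun y : ℝ => Real.log (Real.log (Real.log (Real.log y)))) atTop atTop := t1.comp t3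
  filter_upwards [eventually_ge_atTop 3, t1.eventually_ge_atTop 10, t2.eventually_ge_atTop (10 + 2 * k),
    t3.eventually_ge_atTop 10, t4.eventually_ge_atTop 10] with X hX h1 h2 h3 h4
  intro n hn1 hn2
  have hX0 : 0 < X := by linarith
  have hk0 : (1 : ℝ) ≤ k := by exact_mod_cast hk
  have hn0 : 0 < n := by linarith
  set L := Real.log X with hL
  set M := Real.log n with hM
  have a1 : L ≤ M := Real.log_le_log hX0 hn1
  have a2 : M ≤ 2 * k * L := by
    have h5 := Real.log_le_log hn0 hn2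
    rw [Real.log_pow, Real.log_mul (by norm_num) hX0.ne'] at h5
    have h6 : Real.log 3 ≤ 2 := by
      have := Real.log_le_sub_one_of_pos (show (0 : ℝ) < 3 by norm_num)
      linarith
    have h7 : (k : ℝ) * (Real.log 3 + Real.log X) ≤ k * (L + L) := by
      apply mul_le_mul_of_nonneg_left _ (by linarith)
      rw [← hL]
      linarith
    linarith
  have hL0 : 0 < L := by linarith
  have hM0 : 0 < M := by linarith
  set L2 := Real.log L with hL2
  set M2 := Real.log M with hM2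
  have b1 : L2 ≤ M2 := Real.log_le_log hL0 a1
  have b2 : M2 ≤ 2 * L2 := by
    have h5 := Real.log_le_log hM0 a2
    rw [Real.log_mul (by positivity) hL0.ne'] at h5
    have h6 : Real.log (2 * (k : ℝ)) ≤ 2 * k := (Real.log_le_sub_one_of_pos (by positivity)).trans (by linarith)
    linarith
  have hL20 : 0 < L2 := by linarith
  have hM20 : 0 < M2 := by linarith
  set L3 := Real.log L2 with hL3
  set M3 := Real.log M2 with hM3
  have c1 : L3 ≤ M3 := Real.log_le_log hL20 b1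
  have c2 : M3 ≤ 2 * L3 := by
    have h5 := Real.log_le_log hM20 b2
    rw [Real.log_mul (by norm_num) hL20.ne'] at h5
    have h6 : Real.log (2 : ℝ) ≤ 1 := by
      have := Real.log_le_sub_one_of_pos (show (0 : ℝ) < 2 by norm_num)
      linarith
    linarith
  have hL30 : 0 < L3 := by linarith
  have hM30 : 0 < M3 := by linarith
  set L4 := Real.log L3 with hL4
  set M4 := Real.log M3 with hM4
  have d1 : L4 ≤ M4 := Real.log_le_log hL30 c1
  have d2 : M4 ≤ 2 * L4 := by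
    have h5 := Real.log_le_log hM30 c2
    rw [Real.log_mul (by norm_num) hL30.ne'] at h5
    have h6 : Real.log (2 : ℝ) ≤ 1 := by
      have := Real.log_le_sub_one_of_pos (show (0 : ℝ) < 2 by norm_num)
      linarith
    linarith
  have hL40 : 0 < L4 := by linarith
  have hM40 : 0 < M4 := by linarith
  have e1 : ff n = M * M2 ^ 2 * M4 / M3 ^ 2 := rfl
  have e2 : ff X = L * L2 ^ 2 * L4 / L3 ^ 2 := rfl
  rw [e1, e2]
  calc M * M2 ^ 2 * M4 / M3 ^ 2 ≤ (2 * k * L) * (2 * L2) ^ 2 * (2 * L4) / L3 ^ 2 := by gcongr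
    _ = 16 * k * (L * L2 ^ 2 * L4 / L3 ^ 2) := by ring

theorem prod_cast_le (s : Finset ℕ) (B : ℝ) (h : ∀ p ∈ s, (p : ℝ) ≤ B) :
    ((∏ p ∈ s, p : ℕ) : ℝ) ≤ B ^ s.card := by
  rw [Nat.cast_prod, ← prod_const]
  exact Finset.prod_le_prod (fun p _ => Nat.cast_nonneg p) h

/-- growth -/
theorem ev_count (k : ℕ) (hk : 2 ≤ k) : ∀ᶠ X : ℝ in atTop, ∀ N : ℕ, X / (4 * Real.log X) ≤ N →
    X ^ ((k : ℝ) - 1 / 4) * k ≤ (N.choose (k - 1) : ℝ) * (X ^ (7 / 8 : ℝ) - k) := by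
  obtain ⟨r, rfl⟩ : ∃ r, k = r + 1 := ⟨k - 1, by omega⟩
  have hr : 1 ≤ r := by omega
  rw [Nat.add_sub_cancel]
  set δ : ℝ := 1 / (16 * ((r : ℝ) + 1)) with hδ
  have hδ0 : 0 < δ := by positivity
  have hr0 : (1 : ℝ) ≤ r := by exact_mod_cast hr
  have hδ1 : δ ≤ 1 / 32 := by
    rw [hδ]
    apply one_div_le_one_div_of_le (by norm_num)
    linarith
  have u1 : Tendsto (fun X : ℝ => Real.log X / X ^ δ) atTop (nhds 0) :=
    (isLittleO_log_rpow_atTop hδ0).tendsto_div_nhds_zero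
  have u2 : Tendsto (fun X : ℝ => X ^ (1 - δ)) atTop atTop := tendsto_rpow_atTop (by linarith)
  have u3 : Tendsto (fun X : ℝ => X ^ (7 / 8 : ℝ)) atTop atTop := tendsto_rpow_atTop (by norm_num)
  have u4 : Tendsto (fun X : ℝ => X ^ (1 / 16 : ℝ)) atTop atTop := tendsto_rpow_atTop (by norm_num)
  filter_upwards [eventually_ge_atTop 3, u1.eventually (gt_mem_nhds (show (0 : ℝ) < 1 / 8 by norm_num)),
    u2.eventually_ge_atTop (r : ℝ), u3.eventually_ge_atTop (2 * ((r : ℝ) + 1)),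
    u4.eventually_ge_atTop (2 * ((r : ℝ) + 1) * (r.factorial : ℝ)), Real.tendsto_log_atTop.eventually_ge_atTop 1]
    with X hX h1 h2 h3 h4 h5
  intro N hN
  have hX0 : 0 < X := by linarith
  have hXδ : 0 < X ^ δ := Real.rpow_pos_of_pos hX0 _
  rw [div_lt_iff₀ hXδ] at h1
  have hL0 : 0 < Real.log X := by linarith
  have hN2 : X ^ (1 - δ) ≤ ((N + 1 - r : ℕ) : ℝ) := by
    have h6 : 2 * X ^ (1 - δ) ≤ N := by
      refine le_trans ?_ hN
      rw [le_div_iff₀ (by positivity)]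
      have h7 : X ^ (1 - δ) * X ^ δ = X := by
        rw [← Real.rpow_add hX0]
        simp
      have h8 : X ^ (1 - δ) * (8 * Real.log X) ≤ X ^ (1 - δ) * X ^ δ := by
        apply mul_le_mul_of_nonneg_left _ (by positivity)
        linarith
      linarith
    have h7 : (r : ℝ) ≤ N := by
      have : 0 ≤ X ^ (1 - δ) := by positivity
      linarith
    have h8 : r ≤ N := by exact_mod_cast h7
    rw [Nat.cast_sub (by omega)]
    push_cast
    linarith
  have hch : (X ^ (1 - δ)) ^ r ≤ (r.factorial : ℝ) * (N.choose r : ℝ) := by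
    have h6 := Nat.pow_le_choose (α := ℝ) r N
    have h7 : (((N + 1 - r : ℕ) : ℝ)) ^ r ≤ (r.factorial : ℝ) * (N.choose r : ℝ) := by
      rw [div_le_iff₀ (by exact_mod_cast Nat.factorial_pos r), mul_comm] at h6
      exact_mod_cast h6
    refine le_trans ?_ h7
    gcongr
  have hpow : (X ^ (1 - δ)) ^ r = X ^ ((1 - δ) * r) := by
    rw [← Real.rpow_natCast, ← Real.rpow_mul hX0.le]
  have hfac : (0 : ℝ) < (r.factorial : ℝ) := by exact_mod_cast Nat.factorial_pos r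
  have hhalf : X ^ (7 / 8 : ℝ) / 2 ≤ X ^ (7 / 8 : ℝ) - ((r + 1 : ℕ) : ℝ) := by
    push_cast
    linarith
  have hbig : X ^ (((r + 1 : ℕ) : ℝ) - 1 / 4) * (2 * ((r : ℝ) + 1) * (r.factorial : ℝ)) ≤
      X ^ ((1 - δ) * r) * X ^ (7 / 8 : ℝ) := by
    calc X ^ (((r + 1 : ℕ) : ℝ) - 1 / 4) * (2 * ((r : ℝ) + 1) * (r.factorial : ℝ))
        ≤ X ^ (((r + 1 : ℕ) : ℝ) - 1 / 4) * X ^ (1 / 16 : ℝ) :=
          mul_le_mul_of_nonneg_left h4 (by positivity)
      _ = X ^ ((((r + 1 : ℕ) : ℝ) - 1 / 4) + 1 / 16) := by rw [← Real.rpow_add hX0]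
      _ ≤ X ^ ((1 - δ) * r + 7 / 8) := by
          apply Real.rpow_le_rpow_of_exponent_le (by linarith)
          push_cast
          have h6 : δ * r ≤ 1 / 16 := by
            rw [hδ, div_mul_eq_mul_div, one_mul, div_le_div_iff₀ (by positivity) (by norm_num)]
            linarith
          linarith
      _ = X ^ ((1 - δ) * r) * X ^ (7 / 8 : ℝ) := by rw [← Real.rpow_add hX0]
  rw [hpow] at hch
  have h6 : 0 ≤ X ^ (7 / 8 : ℝ) := by positivity
  have h7 : X ^ ((1 - δ) * r) * X ^ (7 / 8 : ℝ) ≤ (r.factorial : ℝ) * (N.choose r : ℝ) * X ^ (7 / 8 : ℝ) :=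
    mul_le_mul_of_nonneg_right hch h6
  have h8 : X ^ (((r + 1 : ℕ) : ℝ) - 1 / 4) * (2 * ((r : ℝ) + 1)) ≤ (N.choose r : ℝ) * X ^ (7 / 8 : ℝ) := by
    have h9 : (r.factorial : ℝ) * (X ^ (((r + 1 : ℕ) : ℝ) - 1 / 4) * (2 * ((r : ℝ) + 1))) ≤
        (r.factorial : ℝ) * ((N.choose r : ℝ) * X ^ (7 / 8 : ℝ)) := by linarith
    exact le_of_mul_le_mul_left h9 hfac
  have h10 : (N.choose r : ℝ) * (X ^ (7 / 8 : ℝ) / 2) ≤ (N.choose r : ℝ) * (X ^ (7 / 8 : ℝ) - ((r + 1 : ℕ) : ℝ)) :=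
    mul_le_mul_of_nonneg_left hhalf (Nat.cast_nonneg _)
  refine le_trans ?_ h10
  push_cast at h8 ⊢
  linarith

/-- products of `k` primes of the same size -/
theorem products (k : ℕ) (hk : 2 ≤ k) : ∃ c : ℝ, 0 < c ∧ ∃ X₀ : ℝ, ∀ X : ℝ, X₀ ≤ X →
    X ^ ((k : ℝ) - 1 / 4) ≤ ({n : ℕ | (∃ s : Finset ℕ, s.card = k ∧
      (∀ p ∈ s, p.Prime ∧ X < p ∧ (p : ℝ) ≤ 3 * X) ∧ n = ∏ p ∈ s, p) ∧
      ∀ q : ℕ, q.Prime → c * ff n < |((q - n : ℤ) : ℝ)|}.ncard : ℝ) := by
  obtain ⟨c₁, hc₁, X₁, hX₁⟩ := multA 1 k 0 1 squarefree_one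
  have hk0 : (2 : ℝ) ≤ k := by exact_mod_cast hk
  refine ⟨c₁ / (16 * k), by positivity, ?_⟩
  rw [← Filter.eventually_atTop (p := fun X : ℝ => X ^ ((k : ℝ) - 1 / 4) ≤ ({n : ℕ | (∃ s : Finset ℕ, s.card = k ∧
      (∀ p ∈ s, p.Prime ∧ X < p ∧ (p : ℝ) ≤ 3 * X) ∧ n = ∏ p ∈ s, p) ∧
      ∀ q : ℕ, q.Prime → c₁ / (16 * k) * ff n < |((q - n : ℤ) : ℝ)|}.ncard : ℝ))]
  filter_upwards [eventually_ge_atTop X₁, many_primes, ff_pow_le k (by omega), ev_count k hk,
    eventually_ge_atTop ((3 : ℝ) ^ k), eventually_ge_atTop 4, Pool.Agent.H312R2.RG.ev_ff c₁ hc₁]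
    with X hX1 hprim hffk hcount hX3 hX4 hff
  have hX0 : 0 < X := by linarith
  have hffX : c₁ * ff X ≤ X := by
    have := hff.2.2
    have h1 : 0 ≤ c₁ * ff X := mul_nonneg hc₁.le hff.2.1
    linarith
  set Q : Finset ℕ := (Icc 1 ⌊3 * X⌋₊).filter (fun p : ℕ => p.Prime ∧ X < p) with hQ
  have hQm : ∀ p : ℕ, p ∈ Q ↔ (p.Prime ∧ X < p ∧ (p : ℝ) ≤ 3 * X) := by
    intro p
    rw [hQ, mem_filter, mem_Icc]
    constructor
    · rintro ⟨⟨h1, h2⟩, h3, h4⟩
      exact ⟨h3, h4, (Nat.le_floor_iff (by positivity)).1 h2⟩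
    · rintro ⟨h1, h2, h3⟩
      exact ⟨⟨h1.one_lt.le, Nat.le_floor h3⟩, h1, h2⟩
  set S : Set ℕ := {n : ℕ | (∃ s : Finset ℕ, s.card = k ∧
      (∀ p ∈ s, p.Prime ∧ X < p ∧ (p : ℝ) ≤ 3 * X) ∧ n = ∏ p ∈ s, p) ∧
      ∀ q : ℕ, q.Prime → c₁ / (16 * k) * ff n < |((q - n : ℤ) : ℝ)|} with hS
  -- the good last factors
  set G : Finset ℕ → Finset ℕ := fun t => Q.filter (fun p => p ∉ t ∧ (∏ q ∈ t, q) * p ∈ S) with hG
  have hGc : ∀ t ∈ Q.powersetCard (k - 1), X ^ (7 / 8 : ℝ) - k ≤ ((G t).card : ℝ) := by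
    intro t ht
    rw [mem_powersetCard] at ht
    obtain ⟨htQ, htc⟩ := ht
    have htp : ∀ p ∈ t, p.Prime ∧ X < p ∧ (p : ℝ) ≤ 3 * X := fun p hp => (hQm p).1 (htQ hp)
    set a : ℕ := ∏ q ∈ t, q with ha
    have ha0 : a ≠ 0 := prod_ne_zero_iff.2 fun p hp => (htp p hp).1.ne_zero
    have haX : (a : ℝ) ≤ (3 * X) ^ (k - 1) := by
      rw [ha, ← htc]
      exact prod_cast_le _ _ fun p hp => (htp p hp).2.2
    have hakX : (a : ℝ) ≤ X ^ k := by
      refine haX.trans ?_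
      obtain ⟨r, rfl⟩ : ∃ r, k = r + 1 := ⟨k - 1, by omega⟩
      rw [Nat.add_sub_cancel, mul_pow, pow_succ X r, mul_comm]
      apply mul_le_mul_of_nonneg_left _ (by positivity)
      refine le_trans ?_ hX3
      exact pow_le_pow_right₀ (by norm_num) (by omega)
    have hset : {p : ℕ | p.Prime ∧ (p : ℤ) ∣ (a : ℤ) ∧ (p : ℝ) ≤ Real.log X} = ∅ := by
      rw [Set.eq_empty_iff_forall_notMem]
      rintro p ⟨h1, h2, h3⟩
      have h4 : p ∣ a := by exact_mod_cast h2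
      rw [ha, h1.prime.dvd_finsetProd_iff] at h4
      obtain ⟨q, hq, hpq⟩ := h4
      have h5 : p = q := (Nat.prime_dvd_prime_iff_eq h1 (htp q hq).1).1 hpq
      have h6 := (htp q hq).2.1
      rw [← h5] at h6
      have h7 := Real.log_le_sub_one_of_pos hX0
      linarith
    have hmain := hX₁ X hX1 (a : ℤ) 0 (by exact_mod_cast ha0) (by
        rw [Int.cast_natCast, abs_of_nonneg (Nat.cast_nonneg a)]
        exact hakX) (by simp; positivity) (by
        rw [hset, Set.ncard_empty, Nat.cast_zero]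
        positivity) (by
        rw [hset]
        simp) 1 (Nat.coprime_one_left 1)
    set A : Set ℕ := {p : ℕ | p.Prime ∧ X < p ∧ (p : ℝ) ≤ 3 * X ∧ p ≡ 1 [MOD 1] ∧
      ∀ i j : ℤ, 1 ≤ |i| → |i| ≤ ((1 : ℕ) : ℤ) → 1 ≤ |j| → |j| ≤ ((1 : ℕ) : ℤ) → ∀ q : ℕ, q.Prime → q ≠ p →
        c₁ * ff X < |((j * q - i * ((a : ℤ) * p + 0) : ℤ) : ℝ)|} with hA
    have hsub : A ⊆ ((G t ∪ t : Finset ℕ) : Set ℕ) := by
      rintro p ⟨h1, h2, h3, -, h4⟩
      rw [mem_coe, mem_union]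
      by_cases hpt : p ∈ t
      · exact Or.inr hpt
      left
      have hpr : ∏ x ∈ insert p t, x = a * p := by rw [prod_insert hpt, mul_comm]
      have hn1 : X ≤ ((a * p : ℕ) : ℝ) := by
        have h5 : (p : ℝ) ≤ ((a * p : ℕ) : ℝ) := by
          exact_mod_cast Nat.le_mul_of_pos_left p (Nat.pos_of_ne_zero ha0)
        linarith
      have hn2 : ((a * p : ℕ) : ℝ) ≤ (3 * X) ^ k := by
        have h5 : (3 * X) ^ k = (3 * X) ^ (k - 1) * (3 * X) := by
          rw [← pow_succ]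
          congr 1
          omega
        rw [h5]
        push_cast
        exact mul_le_mul haX h3 (Nat.cast_nonneg p) (by positivity)
      have hfn : c₁ / (16 * k) * ff ((a * p : ℕ) : ℝ) ≤ c₁ * ff X := by
        calc c₁ / (16 * k) * ff ((a * p : ℕ) : ℝ) ≤ c₁ / (16 * k) * (16 * k * ff X) :=
              mul_le_mul_of_nonneg_left (hffk _ hn1 hn2) (by positivity)
          _ = c₁ * ff X := by field_simp
      rw [hG]
      simp only
      rw [mem_filter]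
      refine ⟨(hQm p).2 ⟨h1, h2, h3⟩, hpt, ⟨insert p t, ?_, ?_, ?_⟩, ?_⟩
      · rw [card_insert_of_notMem hpt, htc]
        omega
      · intro x hx
        rw [mem_insert] at hx
        rcases hx with rfl | hx
        · exact ⟨h1, h2, h3⟩
        · exact htp x hx
      · exact hpr.symm
      · intro q hq
        refine lt_of_le_of_lt hfn ?_
        by_cases hqp : q = p
        · rw [hqp]
          have h5 : (2 : ℝ) ≤ a := by
            have h6 : 2 ≤ a := by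
              obtain ⟨x, hx⟩ : t.Nonempty := by
                rw [← card_pos, htc]
                omega
              have h7 : x ∣ a := dvd_prod_of_mem (fun x => x) hx
              exact ((htp x hx).1.two_le).trans (Nat.le_of_dvd (Nat.pos_of_ne_zero ha0) h7)
            exact_mod_cast h6
          have h6 : (((p : ℤ) - ((a * p : ℕ) : ℤ) : ℤ) : ℝ) = -(((a : ℝ) - 1) * p) := by
            push_cast
            ring
          rw [h6, abs_neg, abs_of_nonneg (mul_nonneg (by linarith) (Nat.cast_nonneg p))]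
          have h7 : (p : ℝ) ≤ ((a : ℝ) - 1) * p := by
            have : 0 ≤ ((a : ℝ) - 2) * p := mul_nonneg (by linarith) (Nat.cast_nonneg p)
            linarith
          linarith
        · have h5 := h4 1 1 (by norm_num) (by norm_num) (by norm_num) (by norm_num) q hq hqp
          have h6 : ((1 : ℤ) * q - 1 * ((a : ℤ) * p + 0) : ℤ) = (q : ℤ) - ((a * p : ℕ) : ℤ) := by
            push_cast
            ring
          rw [h6] at h5
          exact h5
    have h5 : A.ncard ≤ (G t ∪ t).card := by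
      rw [← Set.ncard_coe_finset]
      exact Set.ncard_le_ncard hsub (Finset.finite_toSet _)
    have h6 : (G t ∪ t).card ≤ (G t).card + (k - 1) := (card_union_le _ _).trans (by rw [htc])
    have h7 : (A.ncard : ℝ) ≤ (G t).card + k := by
      have : A.ncard ≤ (G t).card + k := by omega
      exact_mod_cast this
    linarith
  -- counting
  set T : Finset (Σ _ : Finset ℕ, ℕ) := (Q.powersetCard (k - 1)).sigma (fun t => G t) with hT
  set φ : (Σ _ : Finset ℕ, ℕ) → ℕ := fun x => (∏ q ∈ x.1, q) * x.2 with hφ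
  have hTc : (Q.card.choose (k - 1) : ℝ) * (X ^ (7 / 8 : ℝ) - k) ≤ (T.card : ℝ) := by
    rw [hT, card_sigma]
    push_cast
    calc (Q.card.choose (k - 1) : ℝ) * (X ^ (7 / 8 : ℝ) - k) =
          ∑ t ∈ Q.powersetCard (k - 1), (X ^ (7 / 8 : ℝ) - k) := by
            rw [sum_const, card_powersetCard, nsmul_eq_mul]
      _ ≤ _ := sum_le_sum hGc
  have hTm : ∀ x ∈ T, x.1 ⊆ Q ∧ x.1.card = k - 1 ∧ x.2 ∈ Q ∧ x.2 ∉ x.1 ∧ φ x ∈ S := by
    intro x hx
    rw [hT, mem_sigma, mem_powersetCard, hG] at hx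
    simp only at hx
    rw [mem_filter] at hx
    exact ⟨hx.1.1, hx.1.2, hx.2.1, hx.2.2.1, hx.2.2.2⟩
  have hfac : ∀ x ∈ T, (φ x).primeFactors = insert x.2 x.1 := by
    intro x hx
    obtain ⟨h1, h2, h3, h4, h5⟩ := hTm x hx
    have h6 : φ x = ∏ q ∈ insert x.2 x.1, q := by
      rw [prod_insert h4, mul_comm]
    rw [h6]
    apply Nat.primeFactors_prod
    intro p hp
    rw [mem_insert] at hp
    rcases hp with rfl | hp
    · exact ((hQm _).1 h3).1
    · exact ((hQm _).1 (h1 hp)).1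
  have hfib : ∀ n ∈ T.image φ, (T.filter (fun x => φ x = n)).card ≤ k := by
    intro n hn
    rw [mem_image] at hn
    obtain ⟨x₀, hx₀, rfl⟩ := hn
    have h1 : (φ x₀).primeFactors.card = k := by
      rw [hfac x₀ hx₀, card_insert_of_notMem (hTm x₀ hx₀).2.2.2.1, (hTm x₀ hx₀).2.1]
      omega
    rw [← h1]
    apply card_le_card_of_injOn (fun x => x.2)
    · intro x hx
      rw [mem_coe, mem_filter] at hx
      rw [mem_coe, ← hx.2, hfac x hx.1]
      exact mem_insert_self _ _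
    · intro x hx y hy hxy
      rw [mem_coe, mem_filter] at hx hy
      simp only at hxy
      have h2 := hfac x hx.1
      have h3 := hfac y hy.1
      rw [hx.2] at h2
      rw [hy.2] at h3
      have h4 : x.1 = y.1 := by
        have h5 : (insert x.2 x.1).erase x.2 = x.1 := erase_insert (hTm x hx.1).2.2.2.1
        have h6 : (insert y.2 y.1).erase y.2 = y.1 := erase_insert (hTm y hy.1).2.2.2.1
        rw [← h5, ← h6, ← h2, ← h3, hxy]
      cases x
      cases y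
      simp only at h4 hxy
      rw [h4, hxy]
  have h1 : T.card ≤ k * (T.image φ).card := card_le_mul_card_image T k hfib
  have hSfin : S.Finite := by
    apply (Set.finite_Iic ⌊(3 * X) ^ k⌋₊).subset
    rintro n ⟨⟨s, hs1, hs2, rfl⟩, -⟩
    rw [Set.mem_Iic]
    apply Nat.le_floor
    rw [← hs1]
    exact prod_cast_le _ _ fun p hp => (hs2 p hp).2.2
  have h2 : (T.image φ).card ≤ S.ncard := by
    rw [← Set.ncard_coe_finset]
    apply Set.ncard_le_ncard _ hSfin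
    intro n hn
    rw [mem_coe, mem_image] at hn
    obtain ⟨x, hx, rfl⟩ := hn
    exact (hTm x hx).2.2.2.2
  have h3 := hcount Q.card hprim
  have h4 : (T.card : ℝ) ≤ k * S.ncard := by
    have : T.card ≤ k * S.ncard := h1.trans (Nat.mul_le_mul_left k h2)
    exact_mod_cast this
  have h5 : X ^ ((k : ℝ) - 1 / 4) * k ≤ S.ncard * k := by linarith
  exact le_of_mul_le_mul_right h5 (by linarith)

end Pool.Agent.Y678.RG
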